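import Mathlib

open Polynomial

namespace Pool.Agent.R872.Toric

/-- all complex roots are real and nonnegative (in particular `p ≠ 0`) -/
def NN (p : ℝ[X]) : Prop := ∀ z : ℂ, aeval z p = 0 → z.im = 0 ∧ 0 ≤ z.re

/-- the operator `p ↦ X p' + a p` -/
noncomputable def T (a : ℝ) (p : ℝ[X]) : ℝ[X] := X * derivative p + C a * p

lemma coeff_T (a : ℝ) (p : ℝ[X]) (i : ℕ) : (T a p).coeff i = (i + a) * p.coeff i := by
  unfold T
  rw [coeff_add, coeff_C_mul]
  cases i with
  | zero => simp
  | succ i => rw [coeff_X_mul, coeff_derivative]; push_cast; ring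

lemma key (z : ℂ) (ρ : ℝ) (h : z ≠ ρ) :
    z / (z - ρ) = (Complex.normSq z / Complex.normSq (z - ρ) : ℝ)
      - z * ((ρ / Complex.normSq (z - ρ) : ℝ) : ℂ) := by
  have h1 : z - ρ ≠ 0 := sub_ne_zero.mpr h
  have h2 : (Complex.normSq (z - ρ) : ℂ) ≠ 0 := by
    exact_mod_cast (Complex.normSq_pos.mpr h1).ne'
  have h3 : (Complex.normSq (z - ρ) : ℂ) = (z - ρ) * ((starRingEnd ℂ) z - ρ) := by
    rw [Complex.normSq_eq_conj_mul_self]
    simp only [map_sub, Complex.conj_ofReal]
    ring
  have h4 : (starRingEnd ℂ) z - ρ ≠ 0 := by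
    intro h5
    rw [h5, mul_zero] at h3
    exact h2 h3
  push_cast
  rw [h3, Complex.normSq_eq_conj_mul_self]
  field_simp

lemma NN_T {a : ℝ} (ha : 0 < a) {p : ℝ[X]} (hp : NN p) : NN (T a p) := by
  intro z hz
  by_cases h0 : aeval z p = 0
  · exact hp z h0
  let P : ℂ[X] := p.map (algebraMap ℝ ℂ)
  have hPz : P.eval z = aeval z p := by simp [P, aeval_def, eval_map]
  have hP' : P.derivative.eval z = aeval z (derivative p) := by
    simp [P, aeval_def, eval_map, derivative_map]
  have hne : P.eval z ≠ 0 := by rw [hPz]; exact h0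
  have hdiv := (IsAlgClosed.splits P).eval_derivative_div_eval_of_ne_zero hne
  have hroots : ∀ ρ ∈ P.roots, ρ.im = 0 ∧ 0 ≤ ρ.re := by
    intro ρ hρ
    have : P.eval ρ = 0 := (mem_roots'.mp hρ).2
    apply hp
    rw [← this]; simp [P, aeval_def, eval_map]
  have hPne : P ≠ 0 := by
    intro h; rw [h] at hne; simp at hne
  -- write the sum
  have hsum : z * (P.roots.map (fun ρ => 1 / (z - ρ))).sum =
      (((P.roots.map (fun ρ => Complex.normSq z / Complex.normSq (z - ρ))).sum : ℝ) : ℂ)
        - z * (((P.roots.map (fun ρ => ρ.re / Complex.normSq (z - ρ))).sum : ℝ) : ℂ) := by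
    have hr : ∀ ρ ∈ P.roots, z * (1 / (z - ρ)) =
        (((Complex.normSq z / Complex.normSq (z - ρ)) : ℝ) : ℂ)
          - z * ((ρ.re / Complex.normSq (z - ρ) : ℝ) : ℂ) := by
      intro ρ hρ
      have him := (hroots ρ hρ).1
      have hρ' : (ρ.re : ℂ) = ρ := by
        apply Complex.ext <;> simp [him]
      have hzρ : z ≠ (ρ.re : ℂ) := by
        rw [hρ']
        rintro rfl
        exact hne (mem_roots'.mp hρ).2
      have := key z ρ.re hzρ
      rw [hρ'] at this
      rw [← this]; ring
    rw [← Multiset.sum_map_mul_left, Multiset.map_congr rfl hr, Multiset.sum_map_sub,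
      Multiset.sum_map_mul_left]
    congr 1
    · rw [← Complex.ofRealHom_eq_coe, map_multiset_sum, Multiset.map_map]
      rfl
    · congr 1
      rw [← Complex.ofRealHom_eq_coe, map_multiset_sum, Multiset.map_map]
      rfl
  set S0 : ℝ := (P.roots.map (fun ρ => Complex.normSq z / Complex.normSq (z - ρ))).sum with hS0
  set S1 : ℝ := (P.roots.map (fun ρ => ρ.re / Complex.normSq (z - ρ))).sum with hS1
  have hS0n : 0 ≤ S0 := by
    apply Multiset.sum_nonneg
    intro x hx
    obtain ⟨ρ, hρ, rfl⟩ := Multiset.mem_map.mp hx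
    exact div_nonneg (Complex.normSq_nonneg _) (Complex.normSq_nonneg _)
  have hS1n : 0 ≤ S1 := by
    apply Multiset.sum_nonneg
    intro x hx
    obtain ⟨ρ, hρ, rfl⟩ := Multiset.mem_map.mp hx
    exact div_nonneg (hroots ρ hρ).2 (Complex.normSq_nonneg _)
  have heq : z * P.derivative.eval z + a * P.eval z = 0 := by
    rw [hP', hPz]
    have := hz
    unfold T at this
    simpa using this
  have heq2 : (a : ℂ) + (S0 - z * S1) = 0 := by
    rw [← hsum, ← hdiv]
    field_simp
    linear_combination heq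
  have him : z.im * S1 = 0 := by
    have := congrArg Complex.im heq2
    simp at this
    rcases this with h | h
    · rw [h]; ring
    · rw [h]; ring
  have hre : a + (S0 - z.re * S1) = 0 := by
    have := congrArg Complex.re heq2
    simpa using this
  have hS1pos : 0 < S1 := by
    rcases hS1n.lt_or_eq with h | h
    · exact h
    · rw [← h] at hre; nlinarith
  refine ⟨?_, ?_⟩
  · rcases mul_eq_zero.mp him with h | h
    · exact h
    · exact absurd h hS1pos.ne'
  · by_contra hneg
    push Not at hneg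
    nlinarith [mul_pos (neg_pos.mpr hneg) hS1pos]

/-- apply a list of operators -/
noncomputable def opl : List ℝ → ℝ[X] → ℝ[X]
  | [], p => p
  | a :: L, p => T a (opl L p)

lemma coeff_opl (L : List ℝ) (p : ℝ[X]) (i : ℕ) :
    (opl L p).coeff i = (L.map (fun a => (i : ℝ) + a)).prod * p.coeff i := by
  induction L with
  | nil => simp [opl]
  | cons a L ih => rw [opl, coeff_T, ih, List.map_cons, List.prod_cons]; ring

lemma NN_opl (L : List ℝ) (hL : ∀ a ∈ L, 0 < a) (p : ℝ[X]) (hp : NN p) : NN (opl L p) := by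
  induction L with
  | nil => exact hp
  | cons a L ih =>
    exact NN_T (hL a (by simp)) (ih (fun b hb => hL b (by simp [hb])))

lemma NN_base (N : ℕ) : NN ((X - 1 : ℝ[X]) ^ N) := by
  intro z hz
  have h1 : (z - 1) ^ N = 0 := by simpa using hz
  have h2 : z = 1 := by
    rcases Nat.eq_zero_or_pos N with h | h
    · subst h; simp at h1
    · exact sub_eq_zero.mp (pow_eq_zero_iff h.ne' |>.mp h1)
  subst h2
  simp

end Pool.Agent.R872.Toric
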