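import Pool.Agent.R872.Toric.PartA

open Polynomial Finset Nat

namespace Pool.Agent.R872.Toric

lemma key1 (c e i : ℕ) (he : e ≤ 1) : (2 * (c + e + i))! * i ! =
    2 ^ (c + e) * (∏ l ∈ range c, (2 * i + 2 * l + 1 + 2 * e)) * (c + e + i)! * (2 * i + e)! := by
  induction c with
  | zero =>
    interval_cases e
    · simp
      ring
    · have h1 : 2 * (0 + 1 + i) = 2 * i + 1 + 1 := by ring
      have h2 : 0 + 1 + i = i + 1 := by ring
      rw [h1, h2, Nat.factorial_succ (2 * i + 1), Nat.factorial_succ i]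
      simp
      ring
  | succ c ih =>
    have h1 : 2 * (c + 1 + e + i) = 2 * (c + e + i) + 1 + 1 := by ring
    have h2 : c + 1 + e + i = (c + e + i) + 1 := by ring
    rw [h1, Nat.factorial_succ (2 * (c + e + i) + 1), Nat.factorial_succ (2 * (c + e + i)), h2,
      Nat.factorial_succ (c + e + i), prod_range_succ]
    calc (2 * (c + e + i) + 1 + 1) * ((2 * (c + e + i) + 1) * (2 * (c + e + i))!) * i !
        = (2 * (c + e + i) + 1 + 1) * (2 * (c + e + i) + 1) * ((2 * (c + e + i))! * i !) := by ring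
      _ = _ := by rw [ih]; ring

lemma cat_fact (m : ℕ) : catalan m * (m + 1)! * m ! = (2 * m)! := by
  have h1 := succ_mul_catalan_eq_centralBinom m
  have h2 : m.centralBinom * m ! * m ! = (2 * m)! := by
    rw [Nat.centralBinom_eq_two_mul_choose]
    have := Nat.choose_mul_factorial_mul_factorial (show m ≤ 2 * m by omega)
    have h3 : 2 * m - m = m := by omega
    rw [h3] at this
    exact this
  rw [← h2, ← h1, Nat.factorial_succ]
  ring

lemma coef_id (N e j i : ℕ) (he : e ≤ 1) (hj : 1 ≤ j) (hjN : j ≤ N) (hi : i ≤ N) :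
    N ! * (catalan (N + e + i - j) * (N + e + i).choose (N - i)) =
      2 ^ (N - j + e) * (N.choose i) * (∏ l ∈ range (N - j), (2 * i + 2 * l + 1 + 2 * e)) *
        (N + e + i).descFactorial (j - 1) := by
  obtain ⟨c, rfl⟩ : ∃ c, N = c + j := ⟨N - j, by omega⟩
  have e1 : c + j + e + i - j = c + e + i := by omega
  have e2 : c + j - j = c := by omega
  rw [e1, e2]
  set m := c + e + i with hm
  set Pr := ∏ l ∈ range c, (2 * i + 2 * l + 1 + 2 * e) with hPr
  have h1 := cat_fact m
  have h2 := key1 c e i he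
  rw [← hm, ← hPr] at h2
  have h3 := Nat.choose_mul_factorial_mul_factorial (show c + j - i ≤ c + j + e + i by omega)
  rw [show c + j + e + i - (c + j - i) = 2 * i + e by omega] at h3
  have h4 := Nat.choose_mul_factorial_mul_factorial hi
  have h5 := Nat.factorial_mul_descFactorial (show j - 1 ≤ c + j + e + i by omega)
  rw [show c + j + e + i - (j - 1) = m + 1 by omega] at h5
  set F := (c + j + e + i)!
  set D := (c + j + e + i).descFactorial (j - 1)
  set ch := (c + j + e + i).choose (c + j - i)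
  set chN := (c + j).choose i
  have hK : 0 < (m + 1)! * m ! * (c + j - i)! * (2 * i + e)! * i ! := by positivity
  apply Nat.eq_of_mul_eq_mul_right hK
  calc (c + j)! * (catalan m * ch) * ((m + 1)! * m ! * (c + j - i)! * (2 * i + e)! * i !)
      = (c + j)! * ((catalan m * (m + 1)! * m !) * i !) * (ch * (c + j - i)! * (2 * i + e)!) := by
        ring
    _ = (c + j)! * (2 ^ (c + e) * Pr * m ! * (2 * i + e)!) * F := by rw [h1, h2, h3]
    _ = (chN * i ! * (c + j - i)!) * (2 ^ (c + e) * Pr * m ! * (2 * i + e)!) * ((m + 1)! * D) := by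
        rw [h4, h5]
    _ = _ := by ring

/-- the transformed polynomial -/
noncomputable def G (n j : ℕ) : ℝ[X] :=
  ∑ k ∈ range (n / 2 + 1), C ((-1) ^ k * ((catalan (n - k - j) * (n - k).choose k : ℕ) : ℝ)) *
    X ^ (n / 2 - k)

lemma coeff_G (n j i : ℕ) : (G n j).coeff i = if i ≤ n / 2 then
    (-1) ^ (n / 2 - i) * ((catalan (n - (n / 2 - i) - j) * (n - (n / 2 - i)).choose (n / 2 - i) : ℕ) : ℝ)
    else 0 := by
  unfold G
  rw [finsetSum_coeff]
  split_ifs with h
  · rw [sum_eq_single (n / 2 - i)]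
    · rw [coeff_C_mul, coeff_X_pow, if_pos (by omega), mul_one]
    · intro k hk hne
      rw [coeff_C_mul, coeff_X_pow, if_neg, mul_zero]
      have := mem_range.mp hk
      omega
    · intro hk
      exact absurd (mem_range.mpr (by omega)) hk
  · apply sum_eq_zero
    intro k hk
    rw [coeff_C_mul, coeff_X_pow, if_neg (by omega), mul_zero]

/-- the list of shifts -/
noncomputable def shifts (N e j : ℕ) : List ℝ :=
  (List.range (N - j)).map (fun l : ℕ => (l : ℝ) + 1 / 2 + e) ++
    (List.range (j - 1)).map (fun t : ℕ => ((N + e - t : ℕ) : ℝ))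

lemma shifts_pos (N e j : ℕ) (hjN : j ≤ N) : ∀ a ∈ shifts N e j, 0 < a := by
  intro a ha
  unfold shifts at ha
  rcases List.mem_append.mp ha with h | h
  · obtain ⟨l, _, rfl⟩ := List.mem_map.mp h
    positivity
  · obtain ⟨t, ht, rfl⟩ := List.mem_map.mp h
    have := List.mem_range.mp ht
    have h2 : 0 < N + e - t := by omega
    exact_mod_cast h2

lemma prod_shifts (N e j i : ℕ) (hjN : j ≤ N) :
    (2 : ℝ) ^ (N - j) * ((shifts N e j).map (fun a => (i : ℝ) + a)).prod =
      ((∏ l ∈ range (N - j), (2 * i + 2 * l + 1 + 2 * e)) *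
        (N + e + i).descFactorial (j - 1) : ℕ) := by
  have h1 : ∀ c : ℕ, (2 : ℝ) ^ c * (((List.range c).map (fun l : ℕ => (l : ℝ) + 1 / 2 + e)).map
      (fun a => (i : ℝ) + a)).prod = ((∏ l ∈ range c, (2 * i + 2 * l + 1 + 2 * e) : ℕ) : ℝ) := by
    intro c
    induction c with
    | zero => simp
    | succ c ih =>
      rw [List.range_succ, List.map_append, List.map_append, List.prod_append, prod_range_succ,
        Nat.cast_mul, ← ih]
      simp only [List.map_cons, List.map_nil, List.prod_cons, List.prod_nil]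
      push_cast
      ring
  have h2 : ∀ c : ℕ, c ≤ N → (((List.range c).map (fun t : ℕ => ((N + e - t : ℕ) : ℝ))).map
      (fun a => (i : ℝ) + a)).prod = (((N + e + i).descFactorial c : ℕ) : ℝ) := by
    intro c hc
    induction c with
    | zero => simp
    | succ c ih =>
      rw [List.range_succ, List.map_append, List.map_append, List.prod_append, ih (by omega),
        Nat.descFactorial_succ]
      simp only [List.map_cons, List.map_nil, List.prod_cons, List.prod_nil]
      have h3 : N + e + i - c = (N + e - c) + i := by omega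
      rw [h3]
      push_cast
      ring
  unfold shifts
  rw [List.map_append, List.prod_append, Nat.cast_mul, ← h1, ← h2 (j - 1) (by omega)]
  ring

lemma G_eq (n j : ℕ) (hj : 1 ≤ j) (hjN : j ≤ n / 2) :
    C (((n / 2)! : ℕ) : ℝ) * G n j =
      C ((2 : ℝ) ^ (n / 2 - j + n % 2 + (n / 2 - j))) *
        opl (shifts (n / 2) (n % 2) j) ((X + C (-1)) ^ (n / 2)) := by
  ext i
  rw [coeff_C_mul, coeff_C_mul, coeff_G, coeff_opl, coeff_X_add_C_pow]
  set N := n / 2 with hN
  set e := n % 2 with he
  have hn : n = 2 * N + e := by omega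
  split_ifs with hi
  · have e1 : n - (N - i) = N + e + i := by omega
    rw [e1]
    have h1 := coef_id N e j i (by omega) hj hjN hi
    have h2 := prod_shifts N e j i hjN
    have h3 : (((N ! * (catalan (N + e + i - j) * (N + e + i).choose (N - i)) : ℕ)) : ℝ) =
      ((2 ^ (N - j + e) * (N.choose i) * (∏ l ∈ range (N - j), (2 * i + 2 * l + 1 + 2 * e)) *
        (N + e + i).descFactorial (j - 1) : ℕ) : ℝ) := by exact_mod_cast h1
    rw [mul_assoc (2 ^ (N - j + e) * (N.choose i)), Nat.cast_mul (2 ^ (N - j + e) * (N.choose i)),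
      ← h2] at h3
    rw [Nat.cast_mul] at h3
    calc (N ! : ℝ) * ((-1) ^ (N - i) * ((catalan (N + e + i - j) * (N + e + i).choose (N - i) : ℕ) : ℝ))
        = (-1) ^ (N - i) * ((N ! : ℝ) * ((catalan (N + e + i - j) * (N + e + i).choose (N - i) : ℕ) : ℝ)) := by
          ring
      _ = _ := by
        rw [h3, pow_add]
        push_cast
        ring
  · rw [Nat.choose_eq_zero_of_lt (by omega)]
    simp

theorem part1 (n j : ℕ) (hj : 1 ≤ j) (hjN : j ≤ n / 2) (z : ℂ) (hz : aeval z (G n j) = 0) :
    z.im = 0 := by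
  have h1 := congrArg (aeval z) (G_eq n j hj hjN)
  rw [map_mul, map_mul, hz, mul_zero] at h1
  have h2 : aeval z (C ((2 : ℝ) ^ (n / 2 - j + n % 2 + (n / 2 - j)))) ≠ 0 := by
    rw [aeval_C]
    simp
  have h3 := (mul_eq_zero.mp h1.symm).resolve_left h2
  have hbase : NN ((X + C (-1) : ℝ[X]) ^ (n / 2)) := by
    rw [C_neg, C_1, ← sub_eq_add_neg]; exact NN_base _
  exact (NN_opl _ (shifts_pos _ _ _ hjN) _ hbase z h3).1

end Pool.Agent.R872.Toric
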