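import Mathlib

open Finset Nat

namespace Pool.Agent.R872.Toric

/-- normalised Catalan numbers -/
noncomputable def Ph (k : ℕ) : ℝ := (catalan k : ℝ) / 4 ^ k

lemma Ph_pos (k : ℕ) : 0 ≤ Ph k := by unfold Ph; positivity

lemma Ph_zero : Ph 0 = 1 := by simp [Ph]

lemma cat_rec (k : ℕ) : (k + 2) * catalan (k + 1) = 2 * (2 * k + 1) * catalan k := by
  have h1 := succ_mul_catalan_eq_centralBinom (k + 1)
  have h2 := succ_mul_catalan_eq_centralBinom k
  have h3 := Nat.succ_mul_centralBinom_succ k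
  rw [← h1, ← h2] at h3
  have h4 : (k + 1) * ((k + 2) * catalan (k + 1)) = (k + 1) * (2 * (2 * k + 1) * catalan k) := by
    rw [show k + 2 = k + 1 + 1 from rfl, h3]; ring
  exact Nat.eq_of_mul_eq_mul_left (Nat.succ_pos k) h4

lemma Ph_rec (k : ℕ) : ((k : ℝ) + 2) * Ph (k + 1) = (k + 1 / 2) * Ph k := by
  have h1 : ((k + 2) * catalan (k + 1) : ℝ) = 2 * (2 * k + 1) * catalan k := by
    exact_mod_cast cat_rec k
  unfold Ph
  rw [pow_succ]
  field_simp
  linear_combination 2 * h1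

lemma Ph_conv (n : ℕ) : ∑ p ∈ antidiagonal n, Ph p.1 * Ph p.2 = 4 * Ph (n + 1) := by
  have h1 : ∀ p ∈ antidiagonal n, Ph p.1 * Ph p.2 =
      ((catalan p.1 * catalan p.2 : ℕ) : ℝ) * (1 / 4 ^ n) := by
    intro p hp
    have h2 : p.1 + p.2 = n := mem_antidiagonal.mp hp
    unfold Ph
    rw [← h2, pow_add]
    push_cast
    field_simp
  rw [sum_congr rfl h1, ← sum_mul, ← Nat.cast_sum, ← catalan_succ']
  unfold Ph
  rw [pow_succ]
  field_simp

/-- the coefficients `b (k, l)` -/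
noncomputable def b : ℕ → ℕ → ℝ
  | 0, l => Ph l
  | k + 1, l => ((k + 1) * b k l - (l + 1) / 2 * Ph k * Ph l) / (k + l + 2)

lemma b_zero (l : ℕ) : b 0 l = Ph l := by rw [b]

lemma b_succ (k l : ℕ) : ((k : ℝ) + l + 2) * b (k + 1) l =
    (k + 1) * b k l - (l + 1) / 2 * Ph k * Ph l := by
  rw [b]
  field_simp

lemma b_zero_right (k : ℕ) : b k 0 = Ph k := by
  induction k with
  | zero => exact b_zero 0
  | succ k ih =>
    have h1 := b_succ k 0
    have h2 := Ph_rec k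
    rw [ih, Ph_zero] at h1
    have h3 : ((k : ℝ) + 2) * b (k + 1) 0 = (k + 2) * Ph (k + 1) := by
      push_cast at h1
      linear_combination h1 - h2
    have h4 : ((k : ℝ) + 2) ≠ 0 := by positivity
    exact mul_left_cancel₀ h4 h3

lemma b_nonpos (k l : ℕ) : b (k + 1) (l + 1) ≤ 0 := by
  induction k with
  | zero =>
    have h1 := b_succ 0 (l + 1)
    rw [b_zero, Ph_zero] at h1
    push_cast at h1
    have h2 := Ph_pos (l + 1)
    have h3 : (0 : ℝ) ≤ l := Nat.cast_nonneg l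
    by_contra hcon
    push Not at hcon
    nlinarith [mul_pos hcon (show (0 : ℝ) < 0 + (l + 1) + 2 by positivity), mul_nonneg h3 h2]
  | succ k ih =>
    have h1 := b_succ (k + 1) (l + 1)
    have h2 : 0 ≤ (((l + 1 : ℕ) : ℝ) + 1) / 2 * Ph (k + 1) * Ph (l + 1) := by
      have := Ph_pos (k + 1)
      have := Ph_pos (l + 1)
      positivity
    have h3 : (((k + 1 : ℕ) : ℝ) + 1) * b (k + 1) (l + 1) ≤ 0 :=
      mul_nonpos_of_nonneg_of_nonpos (by positivity) ih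
    have h4 : (0 : ℝ) < ((k + 1 : ℕ) : ℝ) + ((l + 1 : ℕ) : ℝ) + 2 := by positivity
    by_contra hcon
    push Not at hcon
    nlinarith [mul_pos hcon h4]

lemma b_three (k l : ℕ) : b (k + 1) l + b k (l + 1) = b k l - Ph k * Ph l / 2 := by
  induction k generalizing l with
  | zero =>
    have h1 := b_succ 0 l
    have h2 := Ph_rec l
    rw [b_zero, Ph_zero] at h1
    rw [b_zero, b_zero, Ph_zero]
    have h4 : ((l : ℝ) + 2) ≠ 0 := by positivity
    apply mul_left_cancel₀ h4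
    push_cast at h1
    linear_combination h1 + h2
  | succ k ih =>
    have h1 := b_succ (k + 1) l
    have h2 := b_succ k (l + 1)
    have h3 := b_succ k l
    have h4 := ih l
    have h5 := Ph_rec l
    have h6 := Ph_rec k
    push_cast at h1 h2
    have h7 : ((k : ℝ) + l + 3) ≠ 0 := by positivity
    apply mul_left_cancel₀ h7
    linear_combination h1 + h2 - h3 + (k + 1) * h4 - Ph k / 2 * h5 + Ph l / 2 * h6

lemma b_sum (n : ℕ) : ∑ p ∈ antidiagonal n, b p.1 p.2 = (1 / 2) ^ n := by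
  induction n with
  | zero => simp [b_zero, Ph_zero]
  | succ n ih =>
    have h1 := Finset.Nat.sum_antidiagonal_succ (n := n) (f := fun p : ℕ × ℕ => b p.1 p.2)
    have h2 := Finset.Nat.sum_antidiagonal_succ' (n := n) (f := fun p : ℕ × ℕ => b p.1 p.2)
    simp only [b_zero, b_zero_right] at h1 h2
    have h3 : ∑ p ∈ antidiagonal n, (b (p.1 + 1) p.2 + b p.1 (p.2 + 1)) =
        ∑ p ∈ antidiagonal n, (b p.1 p.2 - Ph p.1 * Ph p.2 / 2) :=
      sum_congr rfl (fun p _ => b_three p.1 p.2)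
    rw [sum_add_distrib, sum_sub_distrib, ih, ← sum_div, Ph_conv] at h3
    rw [pow_succ]
    linarith

/-- the two-variable sums -/
noncomputable def F (α β : ℂ) (n : ℕ) : ℂ :=
  ∑ p ∈ antidiagonal n, (b p.1 p.2 : ℂ) * (α ^ p.1 * β ^ p.2)

lemma F_rec (α β : ℂ) (h : α * β = 1) (n : ℕ) : (α + β) * F α β (n + 1) - F α β n =
    Ph (n + 1) * (α ^ (n + 2) + β ^ (n + 2)) -
      1 / 2 * ∑ p ∈ antidiagonal n, ((Ph p.1 : ℂ) * α ^ p.1) * (Ph p.2 * β ^ p.2) := by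
  have h1 : F α β (n + 1) = b 0 (n + 1) * (α ^ 0 * β ^ (n + 1)) +
      ∑ p ∈ antidiagonal n, (b (p.1 + 1) p.2 : ℂ) * (α ^ (p.1 + 1) * β ^ p.2) :=
    Finset.Nat.sum_antidiagonal_succ
  have h2 : F α β (n + 1) = b (n + 1) 0 * (α ^ (n + 1) * β ^ 0) +
      ∑ p ∈ antidiagonal n, (b p.1 (p.2 + 1) : ℂ) * (α ^ p.1 * β ^ (p.2 + 1)) :=
    Finset.Nat.sum_antidiagonal_succ'
  rw [b_zero, pow_zero, one_mul] at h1
  rw [b_zero_right, pow_zero, mul_one] at h2
  have h3 : β * ∑ p ∈ antidiagonal n, (b (p.1 + 1) p.2 : ℂ) * (α ^ (p.1 + 1) * β ^ p.2) =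
      ∑ p ∈ antidiagonal n, (b (p.1 + 1) p.2 : ℂ) * (α ^ p.1 * β ^ p.2) := by
    rw [mul_sum]
    refine sum_congr rfl (fun p _ => ?_)
    rw [pow_succ α]
    linear_combination (b (p.1 + 1) p.2 : ℂ) * α ^ p.1 * β ^ p.2 * h
  have h4 : α * ∑ p ∈ antidiagonal n, (b p.1 (p.2 + 1) : ℂ) * (α ^ p.1 * β ^ (p.2 + 1)) =
      ∑ p ∈ antidiagonal n, (b p.1 (p.2 + 1) : ℂ) * (α ^ p.1 * β ^ p.2) := by
    rw [mul_sum]
    refine sum_congr rfl (fun p _ => ?_)
    rw [pow_succ β]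
    linear_combination (b p.1 (p.2 + 1) : ℂ) * α ^ p.1 * β ^ p.2 * h
  have h5 : ∑ p ∈ antidiagonal n, (b (p.1 + 1) p.2 : ℂ) * (α ^ p.1 * β ^ p.2) +
      ∑ p ∈ antidiagonal n, (b p.1 (p.2 + 1) : ℂ) * (α ^ p.1 * β ^ p.2) =
      F α β n - 1 / 2 * ∑ p ∈ antidiagonal n, ((Ph p.1 : ℂ) * α ^ p.1) * (Ph p.2 * β ^ p.2) := by
    unfold F
    rw [← sum_add_distrib, mul_sum, ← sum_sub_distrib]
    refine sum_congr rfl (fun p _ => ?_)
    have h6 : (b (p.1 + 1) p.2 : ℂ) + b p.1 (p.2 + 1) = b p.1 p.2 - Ph p.1 * Ph p.2 / 2 := by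
      exact_mod_cast congrArg (fun x : ℝ => (x : ℂ)) (b_three p.1 p.2)
    linear_combination (α ^ p.1 * β ^ p.2) * h6
  have h7 : (α + β) * F α β (n + 1) = β * F α β (n + 1) + α * F α β (n + 1) := by ring
  rw [h7]
  nth_rewrite 1 [h1]
  rw [h2, mul_add, mul_add, h3, h4]
  linear_combination h5

end Pool.Agent.R872.Toric
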