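import Pool.Agent.R872.Toric.PartC

open Finset PowerSeries

namespace Pool.Agent.R872.Toric

/-- the power series `∑ Φ_k α^k X^k` -/
noncomputable def ps (α : ℂ) : PowerSeries ℂ := PowerSeries.mk fun k => (Ph k : ℂ) * α ^ k

lemma ps_eq (α : ℂ) : 4 * ps α = 4 + C α * X * ps α ^ 2 := by
  ext n
  cases n with
  | zero =>
    rw [map_add, mul_assoc (C α), coeff_C_mul, coeff_zero_X_mul]
    have h4 : (4 : PowerSeries ℂ) = C (4 : ℂ) := (map_ofNat C 4).symm
    rw [h4, coeff_C_mul]
    simp [ps, Ph_zero]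
  | succ n =>
    have h4 : (4 : PowerSeries ℂ) = C (4 : ℂ) := (map_ofNat C 4).symm
    rw [map_add, mul_assoc (C α), coeff_C_mul (n + 1), coeff_succ_X_mul, h4, coeff_C_mul,
      coeff_C, if_neg (Nat.succ_ne_zero n), zero_add, sq, coeff_mul]
    simp only [ps, coeff_mk]
    have h1 : ∑ p ∈ antidiagonal n, (Ph p.1 : ℂ) * α ^ p.1 * (Ph p.2 * α ^ p.2) =
        (∑ p ∈ antidiagonal n, (Ph p.1 : ℂ) * Ph p.2) * α ^ n := by
      rw [sum_mul]
      refine sum_congr rfl (fun p hp => ?_)
      rw [← mem_antidiagonal.mp hp, pow_add]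
      ring
    have h2 : ∑ p ∈ antidiagonal n, (Ph p.1 : ℂ) * Ph p.2 = 4 * Ph (n + 1) := by
      have := congrArg (fun x : ℝ => (x : ℂ)) (Ph_conv n)
      push_cast at this
      exact this
    rw [h1, h2]
    ring

/-- the generating function of `F` -/
noncomputable def FF (α β : ℂ) : PowerSeries ℂ := PowerSeries.mk (F α β)

lemma FF_eq (α β : ℂ) (h : α * β = 1) : (C (α + β) - X) * FF α β =
    C α * ps α + C β * ps β - C (1 / 2) * (X * (ps α * ps β)) := by
  ext n
  cases n with
  | zero =>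
    rw [sub_mul, map_sub, map_sub, coeff_C_mul, map_add, coeff_C_mul, coeff_C_mul, coeff_C_mul,
      coeff_zero_X_mul, coeff_zero_X_mul]
    simp [FF, ps, F, b_zero, Ph_zero]
  | succ n =>
    rw [sub_mul, map_sub, map_sub, coeff_C_mul, map_add, coeff_C_mul, coeff_C_mul, coeff_C_mul,
      coeff_succ_X_mul, coeff_succ_X_mul, coeff_mul]
    simp only [FF, ps, coeff_mk]
    rw [F_rec α β h n]
    ring

/-- the quadratic variable -/
noncomputable def uu (s : ℂ) : PowerSeries ℂ := C s * X - X ^ 2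

lemma uFF (α β : ℂ) (h : α * β = 1) :
    4 * (uu (α + β) * FF α β) - (uu (α + β) * FF α β) ^ 2 = 4 * uu (α + β) := by
  have h1 := FF_eq α β h
  have h2 : uu (α + β) = X * (C (α + β) - X) := by unfold uu; ring
  have h3 : uu (α + β) * FF α β = X * (C α * ps α + C β * ps β - C (1 / 2) * (X * (ps α * ps β))) := by
    rw [h2, mul_assoc, h1]
  have hαβ : (C α : PowerSeries ℂ) * C β = 1 := by rw [← map_mul, h, map_one]
  have hA := ps_eq α
  have hB := ps_eq β
  have hhalf : (C (1 / 2 : ℂ) : PowerSeries ℂ) * 2 = 1 := by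
    have : (2 : PowerSeries ℂ) = C (2 : ℂ) := (map_ofNat C 2).symm
    rw [this, ← map_mul]
    norm_num
  have hu : uu (α + β) = (C α + C β) * X - X ^ 2 := by
    unfold uu
    rw [map_add]
  rw [h3, hu]
  set A : PowerSeries ℂ := C α * X * ps α with hAdef
  set B : PowerSeries ℂ := C β * X * ps β with hBdef
  have hA' : 4 * A = 4 * (C α * X) + A ^ 2 := by
    rw [hAdef]
    linear_combination (C α * X) * hA
  have hB' : 4 * B = 4 * (C β * X) + B ^ 2 := by
    rw [hBdef]
    linear_combination (C β * X) * hB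
  have hAB : A * B = X * (X * (ps α * ps β)) := by
    rw [hAdef, hBdef]
    linear_combination (X * X * ps α * ps β) * hαβ
  have hQ : X * (C α * ps α + C β * ps β - C (1 / 2) * (X * (ps α * ps β))) =
      A + B - C (1 / 2) * (A * B) := by
    rw [hAB, hAdef, hBdef]
    ring
  rw [hQ]
  have h2Q : 2 * (A + B - C (1 / 2) * (A * B)) = 2 * A + 2 * B - A * B := by
    linear_combination (-(A * B)) * hhalf
  have hfour : (4 : PowerSeries ℂ) ≠ 0 := by
    have : (4 : PowerSeries ℂ) = C (4 : ℂ) := (map_ofNat C 4).symm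
    rw [this]
    intro h
    have := congrArg (coeff 0) h
    simp at this
  apply mul_left_cancel₀ hfour
  have h16 : 4 * (4 * (A + B - C (1 / 2) * (A * B)) - (A + B - C (1 / 2) * (A * B)) ^ 2) =
      8 * (2 * (A + B - C (1 / 2) * (A * B))) - (2 * (A + B - C (1 / 2) * (A * B))) ^ 2 := by ring
  rw [h16, h2Q]
  -- `16 u = 16 - (2 - A)^2 (2 - B)^2`, as `(2 - A)^2 = 4 - 4 α X`
  have e1 : (2 - A) ^ 2 = 4 - 4 * (C α * X) := by linear_combination -hA'
  have e2 : (2 - B) ^ 2 = 4 - 4 * (C β * X) := by linear_combination -hB'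
  have e3 : (2 - A) ^ 2 * (2 - B) ^ 2 = 16 - 16 * ((C α + C β) * X - X ^ 2) := by
    rw [e1, e2]
    linear_combination (16 * X ^ 2) * hαβ
  linear_combination -e3

lemma hasSubst_uu (s : ℂ) : HasSubst (uu s) :=
  HasSubst.of_constantCoeff_zero' (by simp [uu])

lemma sub_eq' (s : ℂ) : 4 * (ps 1).subst (uu s) = 4 + uu s * ((ps 1).subst (uu s)) ^ 2 := by
  have h1 := ps_eq 1
  rw [map_one, one_mul] at h1
  have h2 := congrArg (substAlgHom (hasSubst_uu s)) h1
  rw [map_mul, map_add, map_mul, map_pow, substAlgHom_X] at h2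
  simp only [map_ofNat] at h2
  rw [coe_substAlgHom] at h2
  exact h2

lemma FF_subst (α β : ℂ) (h : α * β = 1) : FF α β = (ps 1).subst (uu (α + β)) := by
  set u := uu (α + β) with hu
  set Y := (ps 1).subst u with hY
  have h1 := uFF α β h
  rw [← hu] at h1
  have h2 : 4 * Y = 4 + u * Y ^ 2 := sub_eq' (α + β)
  have h3 : u * ((FF α β - Y) * (4 - u * (FF α β + Y))) = 0 := by
    linear_combination h1 - u * h2
  have hu0 : u ≠ 0 := by
    intro h
    have := congrArg (coeff 2) h
    rw [hu] at this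
    simp [uu, coeff_X_pow] at this
  have h4 : (4 - u * (FF α β + Y)) ≠ 0 := by
    intro h
    have := congrArg constantCoeff h
    rw [map_sub, map_mul, hu, map_ofNat] at this
    simp [uu] at this
  rcases mul_eq_zero.mp h3 with h5 | h5
  · exact absurd h5 hu0
  · rcases mul_eq_zero.mp h5 with h6 | h6
    · exact sub_eq_zero.mp h6
    · exact absurd h6 h4

lemma coeff_uu_pow (s : ℂ) (n d : ℕ) : coeff n (uu s ^ d) =
    if d ≤ n then (-1) ^ (n - d) * s ^ (d - (n - d)) * (d.choose (n - d)) else 0 := by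
  have h1 : uu s = X * (C s - X) := by unfold uu; ring
  rw [h1, mul_pow, coeff_X_pow_mul']
  split_ifs with h
  · have h2 : (C s - X : PowerSeries ℂ) =
        (((-1 : Polynomial ℂ) * (Polynomial.X + Polynomial.C (-s)) : Polynomial ℂ) : PowerSeries ℂ) := by
      push_cast
      ring_nf
      simp
      ring
    rw [h2, ← Polynomial.coe_pow, Polynomial.coeff_coe, mul_pow]
    have h3 : ((-1 : Polynomial ℂ) ^ d) = Polynomial.C ((-1) ^ d) := by simp
    rw [h3, Polynomial.coeff_C_mul, Polynomial.coeff_X_add_C_pow]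
    rcases Nat.lt_or_ge d (n - d) with hlt | hge
    · rw [Nat.choose_eq_zero_of_lt hlt]; simp
    · rw [neg_pow s, ← mul_assoc, ← mul_assoc, ← pow_add]
      have h4 : ((-1 : ℂ)) ^ (d + (d - (n - d))) = (-1) ^ (n - d) := by
        have : d + (d - (n - d)) = 2 * (d - (n - d)) + (n - d) := by omega
        rw [this, pow_add, pow_mul]
        simp
      rw [h4]
  · rfl

lemma F_formula (α β : ℂ) (h : α * β = 1) (n : ℕ) : F α β n =
    ∑ d ∈ range (n + 1), (Ph d : ℂ) *
      ((-1) ^ (n - d) * (α + β) ^ (d - (n - d)) * (d.choose (n - d))) := by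
  have h1 := congrArg (coeff n) (FF_subst α β h)
  rw [coeff_subst' (hasSubst_uu _)] at h1
  have h2 : coeff n (FF α β) = F α β n := by simp [FF]
  rw [h2] at h1
  rw [h1, finsum_eq_sum_of_support_subset (s := range (n + 1))]
  · refine sum_congr rfl (fun d hd => ?_)
    have hd' : d ≤ n := by have := mem_range.mp hd; omega
    rw [coeff_uu_pow, if_pos hd']
    simp [ps]
  · intro d hd
    simp only [Function.mem_support] at hd
    rw [coeff_uu_pow] at hd
    by_contra hcon
    have : ¬ d ≤ n := by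
      intro hle
      exact hcon (by simp; omega)
    rw [if_neg this] at hd
    simp at hd

end Pool.Agent.R872.Toric
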