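import Pool.Agent.R872.Toric.PartB
import Pool.Agent.R872.Toric.PartD

open Finset Polynomial

namespace Pool.Agent.R872.Toric

lemma G_zero_eval (n : ℕ) (c : ℝ) : c ^ (n % 2) * (G n 0).eval (c ^ 2) =
    2 ^ n * ∑ d ∈ range (n + 1), Ph d * ((-1) ^ (n - d) * (2 * c) ^ (d - (n - d)) *
      (d.choose (n - d))) := by
  have h1 := Finset.sum_range_reflect (fun d => Ph d * ((-1) ^ (n - d) * (2 * c) ^ (d - (n - d)) *
      (d.choose (n - d)))) (n + 1)
  rw [← h1]
  have h2 : range (n / 2 + 1) ⊆ range (n + 1) := by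
    intro k hk
    have := mem_range.mp hk
    exact mem_range.mpr (by omega)
  rw [← sum_subset h2]
  · unfold G
    rw [eval_finsetSum, mul_sum, mul_sum]
    refine sum_congr rfl (fun k hk => ?_)
    have hk' := mem_range.mp hk
    have e1 : n + 1 - 1 - k = n - k := by omega
    have e2 : n - (n - k) = k := by omega
    rw [e1, e2, Nat.sub_zero]
    simp only [eval_mul, eval_C, eval_pow, eval_X]
    unfold Ph
    have e3 : n - k - k = n % 2 + 2 * (n / 2 - k) := by omega
    have e4 : (2 : ℝ) ^ n * 2 ^ (n - k - k) = 4 ^ (n - k) := by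
      rw [← pow_add, show (4 : ℝ) = 2 ^ 2 by norm_num, ← pow_mul]
      congr 1
      omega
    have e5 : (c ^ 2) ^ (n / 2 - k) * c ^ (n % 2) = c ^ (n - k - k) := by
      rw [e3, pow_add, ← pow_mul]
      ring
    rw [mul_pow]
    have h4 : (4 : ℝ) ^ (n - k) ≠ 0 := by positivity
    push_cast
    field_simp
    rw [← e4, ← e5]
    ring
  · intro k hk hk2
    have hk' := mem_range.mp hk
    have hk3 : ¬ k < n / 2 + 1 := fun h => hk2 (mem_range.mpr h)
    have e1 : n + 1 - 1 - k = n - k := by omega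
    have e2 : n - (n - k) = k := by omega
    rw [e1, e2, Nat.choose_eq_zero_of_lt (by omega)]
    simp

lemma trig (n : ℕ) (x : ℝ) : (Real.cos x) ^ (n % 2) * (G n 0).eval ((Real.cos x) ^ 2) =
    2 ^ n * ∑ p ∈ antidiagonal n, b p.1 p.2 * Real.cos (((p.1 : ℝ) - p.2) * x) := by
  rw [G_zero_eval]
  congr 1
  have h0 : Complex.exp (x * Complex.I) * Complex.exp (-(x * Complex.I)) = 1 := by
    rw [← Complex.exp_add]; simp
  have h1 := F_formula _ _ h0 n
  have h2 : Complex.exp (x * Complex.I) + Complex.exp (-(x * Complex.I)) =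
      ((2 * Real.cos x : ℝ) : ℂ) := by
    push_cast
    rw [Complex.two_cos, neg_mul]
  rw [h2] at h1
  have h3 := congrArg Complex.re h1
  have h4 : (∑ d ∈ range (n + 1), (Ph d : ℂ) *
      ((-1) ^ (n - d) * ((2 * Real.cos x : ℝ) : ℂ) ^ (d - (n - d)) * (d.choose (n - d)))) =
      ((∑ d ∈ range (n + 1), Ph d * ((-1) ^ (n - d) * (2 * Real.cos x) ^ (d - (n - d)) *
      (d.choose (n - d))) : ℝ) : ℂ) := by
    push_cast
    rfl
  rw [h4, Complex.ofReal_re] at h3
  rw [← h3]
  unfold F
  rw [Complex.re_sum]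
  refine sum_congr rfl (fun p _ => ?_)
  rw [Complex.re_ofReal_mul, ← Complex.exp_nat_mul, ← Complex.exp_nat_mul, ← Complex.exp_add]
  congr 1
  have h5 : (p.1 : ℂ) * (x * Complex.I) + p.2 * -(x * Complex.I) =
      ((((p.1 : ℝ) - p.2) * x : ℝ) : ℂ) * Complex.I := by
    push_cast; ring
  rw [h5, Complex.exp_ofReal_mul_I_re]

lemma sign_aux (n i : ℕ) (hn : 1 ≤ n) :
    1 ≤ (-1) ^ i * (2 ^ n * ∑ p ∈ antidiagonal n, b p.1 p.2 *
      Real.cos (((p.1 : ℝ) - p.2) * (Real.pi * i / n))) := by
  have hn0 : (n : ℝ) ≠ 0 := by positivity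
  have h1 : ∀ p ∈ antidiagonal n, b p.1 p.2 ≤
      b p.1 p.2 * ((-1) ^ i * Real.cos (((p.1 : ℝ) - p.2) * (Real.pi * i / n))) := by
    rintro ⟨k, l⟩ hp
    have hkl : k + l = n := mem_antidiagonal.mp hp
    have hsq : ((-1 : ℝ) ^ i) * (-1) ^ i = 1 := by
      rw [← mul_pow]; simp
    have hle : (-1 : ℝ) ^ i * Real.cos (((k : ℝ) - l) * (Real.pi * i / n)) ≤ 1 := by
      rcases neg_one_pow_eq_or ℝ i with h | h
      · rw [h, one_mul]; exact Real.cos_le_one _
      · rw [h]
        have := Real.neg_one_le_cos (((k : ℝ) - l) * (Real.pi * i / n))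
        linarith
    have hcos : Real.cos ((n : ℝ) * (Real.pi * i / n)) = (-1) ^ i := by
      have : (n : ℝ) * (Real.pi * i / n) = i * Real.pi := by field_simp
      rw [this, Real.cos_nat_mul_pi]
    rcases Nat.eq_zero_or_pos k with hk | hk
    · subst hk
      have hl : l = n := by omega
      subst hl
      have : ((0 : ℕ) : ℝ) - (l : ℝ) = -l := by simp
      simp only [this]
      rw [neg_mul, Real.cos_neg, hcos, hsq, mul_one]
    · rcases Nat.eq_zero_or_pos l with hl | hl
      · subst hl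
        have hk' : k = n := by omega
        subst hk'
        have : (k : ℝ) - ((0 : ℕ) : ℝ) = k := by simp
        simp only [this]
        rw [hcos, hsq, mul_one]
      · obtain ⟨k', rfl⟩ : ∃ k', k = k' + 1 := ⟨k - 1, by omega⟩
        obtain ⟨l', rfl⟩ : ∃ l', l = l' + 1 := ⟨l - 1, by omega⟩
        have := b_nonpos k' l'
        simp only
        nlinarith
  have h2 := sum_le_sum h1
  rw [b_sum] at h2
  have h3 : ∑ p ∈ antidiagonal n, b p.1 p.2 *
      ((-1) ^ i * Real.cos (((p.1 : ℝ) - p.2) * (Real.pi * i / n))) =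
      (-1) ^ i * ∑ p ∈ antidiagonal n, b p.1 p.2 *
      Real.cos (((p.1 : ℝ) - p.2) * (Real.pi * i / n)) := by
    rw [mul_sum]
    exact sum_congr rfl (fun p _ => by ring)
  rw [h3] at h2
  have h4 : (2 : ℝ) ^ n * (1 / 2) ^ n = 1 := by
    rw [← mul_pow]; norm_num
  have h5 := mul_le_mul_of_nonneg_left h2 (show (0 : ℝ) ≤ 2 ^ n by positivity)
  rw [h4] at h5
  linarith [h5]

/-- A polynomial of degree at most `N` with `N + 1` alternating values has only real roots. -/
lemma real_of_alternating (p : ℝ[X]) (N : ℕ) (hdeg : p.natDegree ≤ N) (w : ℕ → ℝ)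
    (hw : ∀ i, i < N → w (i + 1) < w i) (hs : ∀ i, i ≤ N → 0 < (-1) ^ i * p.eval (w i)) (z : ℂ)
    (hz : aeval z p = 0) : z.im = 0 := by
  have hroot : ∀ i, i < N → ∃ r, w (i + 1) < r ∧ r < w i ∧ p.eval r = 0 := by
    intro i hi
    have h1 := hs i hi.le
    have h2 := hs (i + 1) hi
    have hc : ContinuousOn (fun x => p.eval x) (Set.Icc (w (i + 1)) (w i)) :=
      p.continuous.continuousOn
    rcases neg_one_pow_eq_or ℝ i with h | h
    · rw [pow_succ, h] at h2
      rw [h] at h1
      have h3 : p.eval (w (i + 1)) < 0 := by linarith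
      have h4 : 0 < p.eval (w i) := by linarith
      obtain ⟨r, hr, hr0⟩ := intermediate_value_Ioo (hw i hi).le hc ⟨h3, h4⟩
      exact ⟨r, hr.1, hr.2, hr0⟩
    · rw [pow_succ, h] at h2
      rw [h] at h1
      have h3 : 0 < p.eval (w (i + 1)) := by linarith
      have h4 : p.eval (w i) < 0 := by linarith
      obtain ⟨r, hr, hr0⟩ := intermediate_value_Ioo' (hw i hi).le hc ⟨h4, h3⟩
      exact ⟨r, hr.1, hr.2, hr0⟩
  have hp0 : p ≠ 0 := by
    rintro rfl
    have := hs 0 (Nat.zero_le _)
    simp at this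
  choose! r hr1 hr2 hr3 using hroot
  have hwanti : ∀ i j, i ≤ j → j ≤ N → w j ≤ w i := by
    intro i j hij
    induction j, hij using Nat.le_induction with
    | base => intro _; exact le_rfl
    | succ j hij ih =>
      intro hj
      exact le_trans (hw j hj).le (ih (by omega))
  have hinj : Set.InjOn r (range N : Set ℕ) := by
    intro i hi j hj hij
    have hi' : i < N := by simpa using hi
    have hj' : j < N := by simpa using hj
    by_contra hne
    rcases Nat.lt_or_gt_of_ne hne with hlt | hlt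
    · have h1 := hr1 i hi'
      have h2 := hr2 j hj'
      have h3 := hwanti (i + 1) j hlt hj'.le
      rw [hij] at h1
      linarith
    · have h1 := hr1 j hj'
      have h2 := hr2 i hi'
      have h3 := hwanti (j + 1) i hlt hi'.le
      rw [← hij] at h1
      linarith
  have hsub : (range N).image r ⊆ p.roots.toFinset := by
    intro x hx
    obtain ⟨i, hi, rfl⟩ := mem_image.mp hx
    rw [Multiset.mem_toFinset, mem_roots hp0]
    exact hr3 i (mem_range.mp hi)
  have hcard : N ≤ Multiset.card p.roots := by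
    calc N = ((range N).image r).card := by
          rw [card_image_of_injOn hinj, card_range]
      _ ≤ p.roots.toFinset.card := card_le_card hsub
      _ ≤ Multiset.card p.roots := Multiset.toFinset_card_le _
  have hle := p.card_roots'
  have hsplit : p.Splits := splits_iff_card_roots.mpr (by omega)
  have hz' : (p.map (algebraMap ℝ ℂ)).IsRoot z := by
    rw [IsRoot.def, eval_map, ← aeval_def]
    exact hz
  obtain ⟨x, hx⟩ := hsplit.mem_range_of_isRoot hp0 hz'
  rw [← hx]
  exact Complex.ofReal_im x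

lemma natDegree_G (n j : ℕ) : (G n j).natDegree ≤ n / 2 := by
  rw [natDegree_le_iff_coeff_eq_zero]
  intro i hi
  rw [coeff_G, if_neg (by omega)]

theorem part2 (n : ℕ) (hn : 1 ≤ n) (z : ℂ) (hz : aeval z (G n 0) = 0) : z.im = 0 := by
  have hn0 : (0 : ℝ) < n := by positivity
  have hang : ∀ i, i ≤ n / 2 → 0 ≤ Real.pi * i / n ∧ Real.pi * i / n ≤ Real.pi / 2 := by
    intro i hi
    constructor
    · positivity
    · rw [div_le_iff₀ hn0]
      have h1 : (i : ℝ) * 2 ≤ n := by
        have : i * 2 ≤ n := by omega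
        exact_mod_cast this
      nlinarith [Real.pi_pos]
  refine real_of_alternating (G n 0) (n / 2) (natDegree_G n 0)
    (fun i => (Real.cos (Real.pi * i / n)) ^ 2) ?_ ?_ z hz
  · intro i hi
    have h1 := hang i hi.le
    have h2 := hang (i + 1) hi
    have h3 : Real.pi * i / n < Real.pi * ((i + 1 : ℕ) : ℝ) / n := by
      apply div_lt_div_of_pos_right _ hn0
      push_cast
      nlinarith [Real.pi_pos]
    have h4 : Real.cos (Real.pi * ((i + 1 : ℕ) : ℝ) / n) < Real.cos (Real.pi * i / n) :=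
      Real.cos_lt_cos_of_nonneg_of_le_pi_div_two h1.1 h2.2 h3
    have h5 : 0 ≤ Real.cos (Real.pi * ((i + 1 : ℕ) : ℝ) / n) := by
      apply Real.cos_nonneg_of_neg_pi_div_two_le_of_le
      · linarith [h2.1, Real.pi_pos]
      · exact h2.2
    exact pow_lt_pow_left₀ h4 h5 (by norm_num)
  · intro i hi
    have h1 := hang i hi
    have h2 : 0 ≤ Real.cos (Real.pi * i / n) := by
      apply Real.cos_nonneg_of_neg_pi_div_two_le_of_le
      · linarith [h1.1, Real.pi_pos]
      · exact h1.2
    have h3 := sign_aux n i hn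
    rw [← trig] at h3
    have h4 : 0 ≤ Real.cos (Real.pi * i / n) ^ (n % 2) := pow_nonneg h2 _
    have h5 : 1 ≤ Real.cos (Real.pi * i / n) ^ (n % 2) *
        ((-1) ^ i * (G n 0).eval (Real.cos (Real.pi * i / n) ^ 2)) := by
      calc (1 : ℝ) ≤ _ := h3
        _ = _ := by ring
    by_contra hcon
    push Not at hcon
    have h6 := mul_nonpos_of_nonneg_of_nonpos h4 hcon
    linarith

end Pool.Agent.R872.Toric
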